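import Pool.Agent.Helper15.LS.Main

/-!
# MP_e464cf_an: necessary condition for arbitrary `ℓ_p`-sums

If the `ℓ_p`-sum `X` of an arbitrary sequence of normed spaces `E n`, infinitely many of them
nonzero, has an equivalent `C^k` norm `N`, `k ≥ p`, then `p` is an even integer and at some point
`x₀` the polynomials `v ↦ D^p N(x₀)(v, ..., v) / p!` on the blocks `E n` are uniformly coercive for
large `n` and asymptotically convex on the unit balls.
-/

set_option autoImplicit false

namespace Pool.Agent.Results.MP_e464cf_an.Blocks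

open Filter Pool.Agent.Helper15.LS

theorem result (E : ℕ → Type*) [∀ n, NormedAddCommGroup (E n)] [∀ n, NormedSpace ℝ (E n)]
    (X : Type*) [NormedAddCommGroup X] [NormedSpace ℝ X] (p : ℝ) (hp : 1 ≤ p)
    (J : X → ∀ n, E n) (hJ : IsLpSum p J) (hinf : ∃ᶠ n in atTop, ∃ v : E n, v ≠ 0)
    (ι : ∀ n, E n → X) (hι : ∀ n v, J (ι n v) = Pi.single n v)
    (k : ℕ) (hk : p ≤ k) (N : X → ℝ) (hN : SmoothNorm k N) :
    ∃ q : ℕ, p = q ∧ Even q ∧ ∃ x₀ : X, x₀ ≠ 0 ∧
      UnifCoercive q (fun n => blockPoly N x₀ q (ι n)) ∧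
      AsympConvex (fun n => blockPoly N x₀ q (ι n)) :=
  blocks hp hJ hinf k hk N hN ι hι

end Pool.Agent.Results.MP_e464cf_an.Blocks
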