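import Pool.Agent.Helper15.SR.Embed
import Pool.Agent.Helper15.SR.BochnerT
import Pool.Agent.Helper15.SR.BochnerPoly

/-!
# MP_e464cf_an: smooth renormings of Lebesgue-Bochner spaces

Let `1 ≤ p < ∞`, let `μ` be a measure with infinitely many disjoint measurable sets of finite
positive measure and `E` a nonzero normed space. The space `L_p(μ, E)` has an equivalent `C^k` norm
for some integer `k ≥ p` if and only if `p` is an even integer and `E` has an equivalent norm whose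
`p`-th power is a polynomial, if and only if `L_p(μ, E)` has such a norm (which is `C^∞`).
-/

set_option autoImplicit false

namespace Pool.Agent.Results.MP_e464cf_an.BochnerSpaces

open MeasureTheory
open scoped ENNReal
open Pool.Agent.Helper15.SR

theorem result {Ω : Type*} [MeasurableSpace Ω] (μ : Measure Ω) (E : Type*) [NormedAddCommGroup E]
    [NormedSpace ℝ E] [Nontrivial E] (p : ℝ≥0∞) [Fact (1 ≤ p)] (hp : p ≠ ∞)
    (hμ : ∃ A : ℕ → Set Ω, (∀ n, MeasurableSet (A n)) ∧ Pairwise (Function.onFun Disjoint A) ∧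
      ∀ n, μ (A n) ≠ 0 ∧ μ (A n) ≠ ∞) :
    List.TFAE [
      ∃ k : ℕ, p.toReal ≤ k ∧ HasSmoothNorm (Lp E p μ) (k : WithTop ℕ∞),
      ∃ q : ℕ, p = q ∧ Even q ∧ HasPolyNorm E q,
      ∃ q : ℕ, p = q ∧ Even q ∧ HasPolyNorm (Lp E p μ) q] := by
  have hp0' : 0 < p := zero_lt_one.trans_le Fact.out
  have hp0 : 0 < p.toReal := ENNReal.toReal_pos hp0'.ne' hp
  tfae_have 1 → 2
  | ⟨k, hk, N, hN⟩ => by
    obtain ⟨A, hA, hd, hAf⟩ := hμ
    obtain ⟨T, hT⟩ := bochnerT (X := E) μ hp A hA hd (fun n => (hAf n).1) (fun n => (hAf n).2)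
    obtain ⟨ι, hι⟩ := topmap (X := E) (p := p)
    obtain ⟨v, hv⟩ := exists_ne (0 : E)
    obtain ⟨q, hpq, heven, L, M, hM, -, hML⟩ := embed hp (fun _ => (⊤ : Submodule ℝ E))
      (fun _ _ _ => le_rfl) (fun v ε hε => ⟨0, v, Submodule.mem_top, by simpa using hε⟩) ⟨v, hv⟩
      (T.comp ι) one_pos (fun x => by
        rw [one_mul, ContinuousLinearMap.comp_apply, hT, hι]) k hk N hN
    refine ⟨q, ?_, heven, M, hM, L, hML⟩
    rw [← ENNReal.ofReal_toReal hp, hpq, ENNReal.ofReal_natCast]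
  tfae_have 2 → 3
  | ⟨q, hpq, heven, M, ⟨hadd, hsmul, ⟨c, C, hc, hcC⟩, hsm⟩, L, hL⟩ => by
    subst hpq
    have hq : 0 < q := by
      rcases Nat.eq_zero_or_pos q with h | h
      · subst h
        simp at hp0
      · exact h
    obtain ⟨h1, h2⟩ := poly_of_norm hq L M hadd hsmul hc (fun x => (hcC x).1) hL
    obtain ⟨Λ, M', m1, m2, m3, m4, -, m6⟩ := bochnerNorm μ hq heven L (pow_pos hc q) h1 h2
    exact ⟨q, rfl, heven, M', ⟨m1, m2, m3, m4⟩, Λ, m6⟩
  tfae_have 3 → 1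
  | ⟨q, hpq, heven, M, ⟨hadd, hsmul, hcC, hsm⟩, L, hL⟩ => by
    refine ⟨⌈p.toReal⌉₊, Nat.le_ceil _, M, hadd, hsmul, hcC, hsm.of_le ?_⟩
    exact_mod_cast le_top
  tfae_finish

end Pool.Agent.Results.MP_e464cf_an.BochnerSpaces
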