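import Pool.Agent.Helper15.SR.Embed

/-!
# MP_e464cf_an: spaces whose `ℓ_p`-sums embed into a smooth space

Let `1 ≤ p < ∞` and let `F n` be an increasing sequence of subspaces of `X ≠ 0` with dense union.
If the `ℓ_p`-sum of the `F n` embeds isomorphically into a space `Y` with an equivalent `C^k` norm,
`k ≥ p`, then `p` is an even integer and `X` has an equivalent norm whose `p`-th power is a
polynomial, hence an equivalent `C^∞` norm.
-/

set_option autoImplicit false

namespace Pool.Agent.Results.MP_e464cf_an.Embedding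

open scoped ENNReal
open Pool.Agent.Helper15.SR

theorem result {X Y : Type*} [NormedAddCommGroup X] [NormedSpace ℝ X] [NormedAddCommGroup Y]
    [NormedSpace ℝ Y] [Nontrivial X] (p : ℝ≥0∞) [Fact (1 ≤ p)] (hp : p ≠ ∞)
    (F : ℕ → Submodule ℝ X) (hmono : Monotone F) (hdense : Dense (⋃ n, (F n : Set X)))
    (hT : EmbedsInto (lp (fun n => F n) p) Y) (k : ℕ) (hk : p.toReal ≤ k)
    (hY : HasSmoothNorm Y (k : WithTop ℕ∞)) : ∃ q : ℕ, p = q ∧ Even q ∧ HasPolyNorm X q := by
  obtain ⟨N, hN⟩ := hY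
  obtain ⟨T, κ, hκ, hT⟩ := hT
  obtain ⟨v, hv⟩ := exists_ne (0 : X)
  obtain ⟨q, hpq, heven, L, M, hM, -, hML⟩ := embed hp F hmono (fun v ε hε => by
    obtain ⟨w, hw, hd⟩ := Metric.dense_iff.1 hdense v ε hε
    obtain ⟨n, hn⟩ := Set.mem_iUnion.1 hd
    exact ⟨n, w, hn, by rwa [← dist_eq_norm, dist_comm]⟩) ⟨v, hv⟩ T hκ hT k hk N hN
  refine ⟨q, ?_, heven, M, hM, L, hML⟩
  rw [← ENNReal.ofReal_toReal hp, hpq, ENNReal.ofReal_natCast]

end Pool.Agent.Results.MP_e464cf_an.Embedding
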