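import Pool.Agent.Helper15.LS.Main

/-!
# MP_e464cf_an: the problem for `ℓ_p`-sums with recurrent blocks

Let `X` be the `ℓ_p`-sum of separable spaces `E n`, `1 ≤ p < ∞`, such that, with fixed constants,
every finite-dimensional subspace of a block embeds into infinitely many blocks. If `X` has an
equivalent `C^k` norm for one integer `k ≥ p`, then `X` has an equivalent `C^∞` norm; if moreover
`X ≠ 0`, then `p` is an even integer and the `p`-th power of the norm is a polynomial.
-/

set_option autoImplicit false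

namespace Pool.Agent.Results.MP_e464cf_an.LpSums

open Pool.Agent.Helper15.LS

theorem result (E : ℕ → Type*) [∀ n, NormedAddCommGroup (E n)] [∀ n, NormedSpace ℝ (E n)]
    [∀ n, TopologicalSpace.SeparableSpace (E n)] (X : Type*) [NormedAddCommGroup X]
    [NormedSpace ℝ X] (p : ℝ) (hp : 1 ≤ p) (J : X → ∀ n, E n) (hJ : IsLpSum p J)
    (hrec : RecurrentBlocks E) (k : ℕ) (hk : p ≤ k) (hX : HasSmoothNorm X k) :
    HasSmoothNorm X ((⊤ : ℕ∞) : WithTop ℕ∞) ∧
      ((∃ x : X, x ≠ 0) → ∃ q : ℕ, p = q ∧ Even q ∧ HasPolyNorm X q) :=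
  lpSums hp hJ hrec k hk hX

end Pool.Agent.Results.MP_e464cf_an.LpSums
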